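import Pool.Agent.Y824.G4.Step
import Pool.Agent.Y223.G.Stm4

/-!
# Project G, G4-DESCG: invariants of a finite group with inertia groups of prime order
-/

set_option autoImplicit false
set_option linter.unusedSectionVars false

namespace Pool.Agent.Y824.G4

open Polynomial Finset IsLocalRing

lemma iter_eq {B : Type} [CommRing B] {G : Type} [Group G] (ρ : G →* (B ≃+* B)) (τ : G) (n : ℕ)
    (x : B) : ρ (τ ^ n) x = (ρ τ)^[n] x := by
  induction n with
  | zero =>
    rw [pow_zero, rone]
    rfl
  | succ n ih => rw [pow_succ', rmul, ih, Function.iterate_succ_apply']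

/-- the target -/
theorem t_DESCG : Pool.Agent.Y223.G.S_DESCG := by
  classical
  intro B _ _ _ G _ _ ρ hρ A _ _ j hj hfix hQ
  let _ : Fintype G := Fintype.ofFinite _
  rw [isRegularRing_iff]
  intro q hq
  algebraize [j]
  have hint : Algebra.IsIntegral A B := by
    refine ⟨fun b => ?_⟩
    have hl : PG ρ b ∈ lifts j := by
      rw [lifts_iff_coeff_lifts]
      intro n
      exact (hfix _).1 fun g => PG_coeff ρ b n g
    obtain ⟨PA, h1, _, h2⟩ := lifts_and_degree_eq_and_monic hl (by
      unfold PG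
      exact monic_prod_of_monic _ _ fun _ _ => monic_X_sub_C _)
    refine ⟨PA, h2, ?_⟩
    change eval₂ j b PA = 0
    rw [← eval_map, h1]
    unfold PG
    rw [eval_prod]
    refine Finset.prod_eq_zero (mem_univ (1 : G)) ?_
    rw [rone]
    simp
  obtain ⟨Q, -, hQp, hQq⟩ := Ideal.exists_ideal_over_prime_of_isIntegral q (⊥ : Ideal B) (by
    intro x hx
    rw [Ideal.mem_comap, Ideal.mem_bot] at hx
    have h1 : x = 0 := hj (by rw [map_zero]; exact hx)
    rw [h1]
    exact q.zero_mem)
  have hQq' : q = Q.comap j := hQq.symm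
  by_cases hI : iner ρ Q = ⊥
  · -- unramified case
    obtain ⟨y, -, hy2⟩ := exists_sep (ρ := ρ) (Q := Q) (Or.inl (by rw [hI]; simp))
    let _ : Fintype (G ⧸ iner ρ Q) := Fintype.ofFinite _
    refine step ρ (iner ρ Q) (RingHom.id B) Function.injective_id (fun b => ?_) j hj hfix Q Q
      (Ideal.comap_id Q).symm q hQq' y hy2
    refine ⟨fun _ => ⟨b, rfl⟩, fun _ h hh => ?_⟩
    rw [hI, Subgroup.mem_bot] at hh
    rw [hh, rone]
  · -- ramified case
    rcases hQ Q hQp with h1 | ⟨p, τ, hp, hτ, h2, b, hb⟩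
    · exact absurd ((Subgroup.eq_bot_iff_forall (iner ρ Q)).2 fun g hg => h1 g hg) hI
    have hle : iner ρ Q ≤ Subgroup.zpowers τ := fun g hg => h2 g hg
    have hτ1 : τ ≠ 1 := by
      rintro rfl
      apply hI
      rw [Subgroup.zpowers_one_eq_bot] at hle
      exact le_bot_iff.1 hle
    have hord : orderOf τ = p := by
      rcases (Nat.dvd_prime hp).1 (orderOf_dvd_of_pow_eq_one hτ) with h | h
      · exact absurd (orderOf_eq_one_iff.1 h) hτ1
      · exact h
    have hcz : Nat.card (Subgroup.zpowers τ) = p := by rw [Nat.card_zpowers, hord]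
    have hcI : Nat.card (iner ρ Q) = p := by
      have h3 := Subgroup.card_dvd_of_le hle
      rw [hcz] at h3
      rcases (Nat.dvd_prime hp).1 h3 with h | h
      · exact absurd (Subgroup.card_eq_one.1 h) hI
      · exact h
    have hIz : iner ρ Q = Subgroup.zpowers τ :=
      Subgroup.eq_of_le_of_card_ge hle (by rw [hcI, hcz])
    have hτI : τ ∈ iner ρ Q := by
      rw [hIz]
      exact Subgroup.mem_zpowers τ
    obtain ⟨y, hy1, hy2⟩ := exists_sep (ρ := ρ) (Q := Q) (Or.inr (by rw [hcI]; exact hp))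
    let _ : Fintype (G ⧸ iner ρ Q) := Fintype.ofFinite _
    have : Fact p.Prime := ⟨hp⟩
    let CI : Subring B := RingHom.eqLocus ((ρ τ : B ≃+* B) : B →+* B) (RingHom.id B)
    have hmem : ∀ x : B, x ∈ CI ↔ ρ τ x = x := fun x => Iff.rfl
    have hσ : ∀ x, (ρ τ)^[p] x = x := by
      intro x
      rw [← iter_eq, hτ, rone]
    have hfixσ : ∀ b, ρ τ b = b ↔ ∃ c : CI, CI.subtype c = b := by
      intro b
      constructor
      · intro h
        exact ⟨⟨b, h⟩, rfl⟩
      · rintro ⟨c, rfl⟩
        exact c.2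
    have hC : ∀ b, (∀ h ∈ iner ρ Q, ρ h b = b) ↔ ∃ c : CI, CI.subtype c = b := by
      intro b
      rw [← hfixσ]
      constructor
      · intro h
        exact h τ hτI
      · intro h g hg
        rw [hIz] at hg
        obtain ⟨n, hn⟩ := mem_powers_iff_mem_zpowers.2 hg
        have hn' : τ ^ n = g := hn
        rw [← hn', iter_eq]
        exact Function.iterate_fixed h n
    let jA : A →+* CI := j.codRestrict CI fun a => (hmem _).2 ((hfix _).2 ⟨a, rfl⟩ τ)
    have hjA : ∀ a, CI.subtype (jA a) = j a := fun a => rfl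
    have hreg : IsRegularLocalRing (Localization.AtPrime (Q.comap CI.subtype)) :=
      case2' (ρ τ) hσ CI.subtype Subtype.val_injective hfixσ (Q.comap CI.subtype) Q rfl
        (fun x => hτI x) (by
          by_contra hcon
          push Not at hcon
          exact hτ1 (hρ τ hcon)) b hb
    refine step ρ (iner ρ Q) CI.subtype Subtype.val_injective hC jA (fun a a' h => hj ?_) hfix Q
      (Q.comap CI.subtype) rfl q ?_ (⟨y, (hmem _).2 (hy1 τ hτI)⟩ : CI) hy2
    · rw [← hjA, ← hjA, h]
    · rw [hQq', Ideal.comap_comap]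
      rfl

end Pool.Agent.Y824.G4
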