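import Pool.Agent.Y894.G.DESC

/-!
# Project G, G4-DESCG: descent of regularity along essentially monogenic extensions, and the
invariants of an automorphism of prime order without a Noetherian hypothesis
-/

set_option autoImplicit false
set_option linter.unusedSectionVars false

namespace Pool.Agent.Y824.G4

open Polynomial Finset IsLocalRing Pool.Agent.Y894.G

section noeth

variable {R S : Type} [CommRing R] [CommRing S] (f : R →+* S) (x : S) (P : R[X])

/-- elements of an extended ideal are values of polynomials with coefficients in the ideal -/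
lemma mem_map_eval (hsurj : ∀ c : S, ∃ g : R[X], c = eval₂ f x g) (J : Ideal R) (c : S)
    (hc : c ∈ J.map f) : ∃ g : R[X], g ∈ J.map (C : R →+* R[X]) ∧ c = eval₂ f x g := by
  have hc' : c ∈ Submodule.span S (f '' J) := hc
  induction hc' using Submodule.span_induction with
  | mem y hy =>
    obtain ⟨a, ha, rfl⟩ := hy
    exact ⟨Polynomial.C a, Ideal.mem_map_of_mem _ ha, (eval₂_C f x).symm⟩
  | zero => exact ⟨0, Ideal.zero_mem _, (eval₂_zero f x).symm⟩
  | add y z hy hz ihy ihz =>
    obtain ⟨g, hg, rfl⟩ := ihy hy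
    obtain ⟨h, hh, rfl⟩ := ihz hz
    exact ⟨g + h, Ideal.add_mem _ hg hh, (eval₂_add f x).symm⟩
  | smul a y hy ihy =>
    obtain ⟨g, hg, rfl⟩ := ihy hy
    obtain ⟨h, hh⟩ := hsurj a
    refine ⟨h * g, Ideal.mul_mem_left _ _ hg, ?_⟩
    rw [eval₂_mul, ← hh, smul_eq_mul]

/-- ideals are contracted -/
lemma comap_map_eq (hP : P.Monic) (hP1 : 0 < P.natDegree) (hP0 : eval₂ f x P = 0)
    (hker : ∀ g, eval₂ f x g = 0 → P ∣ g) (hsurj : ∀ c : S, ∃ g : R[X], c = eval₂ f x g)
    (J : Ideal R) : (J.map f).comap f = J := by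
  refine le_antisymm ?_ Ideal.le_comap_map
  intro r hr
  rw [Ideal.mem_comap] at hr
  obtain ⟨g, hg, h1⟩ := mem_map_eval f x hsurj J _ hr
  rcases subsingleton_or_nontrivial R with hs | hs
  · rw [Subsingleton.elim r 0]
    exact J.zero_mem
  have h2 : ∀ n, (g %ₘ P).coeff n ∈ J := by
    intro n
    rw [← Ideal.Quotient.eq_zero_iff_mem, ← coeff_map, map_modByMonic _ hP]
    have h3 : g.map (Ideal.Quotient.mk J) = 0 := by
      ext m
      rw [coeff_map, coeff_zero, Ideal.Quotient.eq_zero_iff_mem]
      exact Ideal.mem_map_C_iff.1 hg m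
    rw [h3, zero_modByMonic, coeff_zero]
  have h4 : eval₂ f x (g %ₘ P) = eval₂ f x g := by
    conv_rhs => rw [← modByMonic_add_div g P]
    rw [eval₂_add, eval₂_mul, hP0, zero_mul, add_zero]
  have h5 : Polynomial.C r - g %ₘ P = 0 := by
    by_contra hne
    refine hP.not_dvd_of_degree_lt hne ?_ (hker _ ?_)
    · refine (degree_sub_le _ _).trans_lt (max_lt ?_ (degree_modByMonic_lt _ hP))
      refine degree_C_le.trans_lt ?_
      exact natDegree_pos_iff_degree_pos.1 hP1
    · rw [eval₂_sub, eval₂_C, h4, h1, sub_self]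
  have h6 := h2 0
  rw [← sub_eq_zero.1 h5, coeff_C_zero] at h6
  exact h6

/-- descent of the Noetherian property -/
theorem noeth [hC : IsNoetherianRing S] (hP : P.Monic) (hP1 : 0 < P.natDegree)
    (hP0 : eval₂ f x P = 0) (hker : ∀ g, eval₂ f x g = 0 → P ∣ g)
    (hsurj : ∀ c : S, ∃ g : R[X], c = eval₂ f x g) : IsNoetherianRing R := by
  rw [isNoetherianRing_iff, isNoetherian_iff']
  have h1 : WellFoundedGT (Ideal S) := isNoetherian_iff'.1 (isNoetherianRing_iff.1 hC)
  have h2 : StrictMono (fun J : Ideal R => J.map f) := by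
    intro J K hJK
    refine lt_of_le_of_ne (Ideal.map_mono hJK.le) fun h => hJK.ne ?_
    have h3 := congrArg (fun L : Ideal S => L.comap f) h
    simp only at h3
    rwa [comap_map_eq f x P hP hP1 hP0 hker hsurj, comap_map_eq f x P hP hP1 hP0 hker hsurj] at h3
  exact h2.wellFoundedGT

end noeth

section mono

variable {A B : Type} [CommRing A] [CommRing B] (j : A →+* B) (q : Ideal A) [q.IsPrime]
  (Q : Ideal B) [Q.IsPrime] (hq : q = Q.comap j) (b : B) (PA : A[X])

lemma jq_comp : (Localization.localRingHom q Q j hq).comp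
    (algebraMap A (Localization.AtPrime q)) =
    (algebraMap B (Localization.AtPrime Q)).comp j := by
  ext a
  exact Localization.localRingHom_to_map q Q j hq a

lemma map_eval (g : A[X]) : eval₂ (Localization.localRingHom q Q j hq)
    (algebraMap B (Localization.AtPrime Q) b)
    (g.map (algebraMap A (Localization.AtPrime q))) =
    algebraMap B (Localization.AtPrime Q) (eval₂ j b g) := by
  rw [eval₂_map, jq_comp, hom_eval₂]

/-- the kernel -/
theorem ker_dvd (hBinj : Function.Injective (algebraMap B (Localization.AtPrime Q)))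
    (hker : ∀ g0 : A[X], eval₂ j b g0 = 0 → PA ∣ g0) (g : (Localization.AtPrime q)[X])
    (hg : eval₂ (Localization.localRingHom q Q j hq)
      (algebraMap B (Localization.AtPrime Q) b) g = 0) :
    PA.map (algebraMap A (Localization.AtPrime q)) ∣ g := by
  obtain ⟨s, hs⟩ := IsLocalization.integerNormalization_map_to_map q.primeCompl g
  set g0 := IsLocalization.integerNormalization q.primeCompl g with hg0
  have h1 : eval₂ j b g0 = 0 := by
    apply hBinj
    have h0 : (s : A) • g = C (algebraMap A (Localization.AtPrime q) s) * g := by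
      ext n
      rw [coeff_C_mul, coeff_smul, Algebra.smul_def]
    rw [← map_eval j q Q hq, hs, h0, map_zero, eval₂_mul, hg, mul_zero]
  have h2 := hker g0 h1
  have h3 := Polynomial.map_dvd (algebraMap A (Localization.AtPrime q)) h2
  rw [hs] at h3
  obtain ⟨h, hh⟩ := h3
  have hsu : IsUnit (algebraMap A (Localization.AtPrime q) s) :=
    IsLocalization.map_units _ s
  obtain ⟨v, hv⟩ := hsu.exists_left_inv
  refine ⟨C v * h, ?_⟩
  have h4 : g = C v * ((s : A) • g) := by
    ext n
    rw [coeff_C_mul, coeff_smul, Algebra.smul_def, ← mul_assoc, hv, one_mul]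
  rw [h4, hh]
  ring

/-- descent of regularity -/
theorem mono_reg [IsNoetherianRing (Localization.AtPrime q)]
    [IsRegularLocalRing (Localization.AtPrime Q)]
    (hBinj : Function.Injective (algebraMap B (Localization.AtPrime Q))) (hPm : PA.Monic)
    (hPA0 : eval₂ j b PA = 0) (hker : ∀ g0 : A[X], eval₂ j b g0 = 0 → PA ∣ g0)
    (hsurj : ∀ c : Localization.AtPrime Q, ∃ g s : (Localization.AtPrime q)[X],
      IsUnit (eval₂ (Localization.localRingHom q Q j hq) (algebraMap B _ b) s) ∧
      c * eval₂ (Localization.localRingHom q Q j hq) (algebraMap B _ b) s =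
        eval₂ (Localization.localRingHom q Q j hq) (algebraMap B _ b) g) :
    IsRegularLocalRing (Localization.AtPrime q) := by
  have hloc : IsLocalHom (Localization.localRingHom q Q j hq) :=
    Localization.isLocalHom_localRingHom q Q j hq
  refine Pool.Agent.Y223.INV.desc (C' := Localization.AtPrime Q)
    (eval₂RingHom (Localization.localRingHom q Q j hq) (algebraMap B (Localization.AtPrime Q) b))
    (PA.map (algebraMap A (Localization.AtPrime q))) (hPm.map _) ?_ ?_ hsurj ?_
  · rw [coe_eval₂RingHom, map_eval, hPA0, map_zero]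
  · intro g hg
    rw [coe_eval₂RingHom] at hg
    exact ker_dvd j q Q hq b PA hBinj hker g hg
  · intro a ha
    rw [coe_eval₂RingHom, eval₂_C] at ha
    exact isUnit_of_map_unit (Localization.localRingHom q Q j hq) a ha

end mono

section desc

variable {A B : Type} [CommRing A] [CommRing B] [IsDomain B] {p : ℕ} [hp : Fact p.Prime]
  (σ : B ≃+* B) (hσ : ∀ x, σ^[p] x = x) (j : A →+* B) (hj : Function.Injective j)
  (hfix : ∀ b, σ b = b ↔ ∃ a, j a = b)

include hσ hj hfix in
/-- the case of a point where `σ` is trivial -/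
theorem case2' (q : Ideal A) [q.IsPrime] (Q : Ideal B) [hQ : Q.IsPrime]
    [IsRegularLocalRing (Localization.AtPrime Q)] (hq : q = Q.comap j)
    (htr : ∀ x, σ x - x ∈ Q) (hne : ∃ x, σ x ≠ x) (b : B)
    (hb : ∀ c, ∃ s, s ∉ Q ∧ (σ b - b) ∣ s * (σ c - c)) :
    IsRegularLocalRing (Localization.AtPrime q) := by
  have hQst : ∀ x, σ x ∈ Q ↔ x ∈ Q := by
    intro x
    constructor
    · intro h
      have h1 : x = σ x - (σ x - x) := by ring
      rw [h1]
      exact Q.sub_mem h (htr x)
    · intro h
      have h1 : σ x = (σ x - x) + x := by ring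
      rw [h1]
      exact Q.add_mem (htr x) h
  have hQc : Q = Q.comap (σ : B →+* B) := by
    ext x
    rw [Ideal.mem_comap]
    exact (hQst x).symm
  have hBinj : Function.Injective (algebraMap B (Localization.AtPrime Q)) :=
    IsLocalization.injective _ Q.primeCompl_le_nonZeroDivisors
  have : IsDomain (Localization.AtPrime Q) :=
    IsLocalization.isDomain_localization Q.primeCompl_le_nonZeroDivisors
  have htne : σ b - b ≠ 0 := by
    intro h0
    obtain ⟨x, hx⟩ := hne
    obtain ⟨s, hs, h1⟩ := hb x
    rw [h0, zero_dvd_iff] at h1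
    rcases mul_eq_zero.1 h1 with h2 | h2
    · exact hs (h2 ▸ Q.zero_mem)
    · exact hx (sub_eq_zero.1 h2)
  let τ : Localization.AtPrime Q →+* Localization.AtPrime Q :=
    Localization.localRingHom Q Q (σ : B →+* B) hQc
  let al := algebraMap B (Localization.AtPrime Q)
  have hτal : ∀ x : B, τ (al x) = al (σ x) := fun x =>
    Localization.localRingHom_to_map Q Q (σ : B →+* B) hQc x
  have hτal' : ∀ (n : ℕ) (x : B), τ^[n] (al x) = al (σ^[n] x) := by
    intro n
    induction n with
    | zero => exact fun x => rfl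
    | succ n ih =>
      intro x
      rw [Function.iterate_succ_apply', ih, hτal, ← Function.iterate_succ_apply' (⇑σ)]
  have hfrac : ∀ x : Localization.AtPrime Q, ∃ r s : B, s ∉ Q ∧ x * al s = al r := by
    intro x
    obtain ⟨r, s, rfl⟩ := IsLocalization.exists_mk'_eq Q.primeCompl x
    exact ⟨r, s, s.2, IsLocalization.mk'_spec _ _ _⟩
  have hunit : ∀ s : B, s ∉ Q → IsUnit (al s) := fun s hs =>
    IsLocalization.map_units (Localization.AtPrime Q) (⟨s, hs⟩ : Q.primeCompl)
  have hτp : ∀ x, τ^[p] x = x := by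
    intro x
    obtain ⟨r, s, hs, h⟩ := hfrac x
    have h1 := congrArg (τ^[p]) h
    rw [iterate_map_mul, hτal', hτal', hσ, hσ, ← h] at h1
    exact (hunit s hs).mul_right_cancel h1
  have hdiff : ∀ (x : Localization.AtPrime Q) (r s : B), x * al s = al r →
      (τ x - x) * (al (σ s) * al s) = al (σ r - r) * al s - al r * al (σ s - s) := by
    intro x r s h
    have h1 := congrArg τ h
    rw [map_mul, hτal, hτal] at h1
    rw [map_sub, map_sub]
    linear_combination al s * h1 - al (σ s) * h
  have hm : ∀ x, τ x - x ∈ maximalIdeal (Localization.AtPrime Q) := by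
    intro x
    obtain ⟨r, s, hs, h⟩ := hfrac x
    have h1 := hdiff x r s h
    have h2 : (τ x - x) * (al (σ s) * al s) ∈ maximalIdeal (Localization.AtPrime Q) := by
      rw [h1]
      refine Ideal.sub_mem _ (Ideal.mul_mem_right _ _ ?_) (Ideal.mul_mem_left _ _ ?_)
      · exact (IsLocalization.AtPrime.to_map_mem_maximal_iff _ Q _).2 (htr r)
      · exact (IsLocalization.AtPrime.to_map_mem_maximal_iff _ Q _).2 (htr s)
    have h3 : IsUnit (al (σ s) * al s) :=
      (hunit _ (fun h => hs ((hQst s).1 h))).mul (hunit s hs)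
    exact (Ideal.mul_unit_mem_iff_mem _ h3).1 h2
  have hdiv0 : ∀ x : B, al (σ b - b) ∣ al (σ x - x) := by
    intro x
    obtain ⟨s, hs, h1⟩ := hb x
    have h2 := map_dvd al h1
    rw [map_mul] at h2
    exact ((hunit s hs).dvd_mul_left).1 h2
  have hdiv : ∀ x, (τ (al b) - al b) ∣ τ x - x := by
    intro x
    have ht : τ (al b) - al b = al (σ b - b) := by rw [hτal, map_sub]
    rw [ht]
    obtain ⟨r, s, hs, h⟩ := hfrac x
    have h1 := hdiff x r s h
    have h3 : IsUnit (al (σ s) * al s) :=
      (hunit _ (fun h => hs ((hQst s).1 h))).mul (hunit s hs)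
    rw [← h3.dvd_mul_right, h1]
    exact dvd_sub (Dvd.dvd.mul_right (hdiv0 r) _) (Dvd.dvd.mul_left (hdiv0 s) _)
  have htne' : τ (al b) - al b ≠ 0 := by
    rw [hτal, ← map_sub]
    intro h
    exact htne (hBinj (by rw [map_zero]; exact h))
  have hinv : ∀ x, τ x = x → ∃ a, Localization.localRingHom q Q j hq a = x := by
    intro x hx
    obtain ⟨r, s, hs, h⟩ := hfrac x
    let s' : B := ∏ i ∈ range (p - 1), σ^[i + 1] s
    have hn : s' * s = ∏ i ∈ range p, σ^[i] s := by
      have h1 : p = (p - 1) + 1 := by have := hp.out.pos; omega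
      rw [h1, prod_range_succ']
      rfl
    have hσn : σ (s' * s) = s' * s := by
      have h1 : σ (∏ i ∈ range p, σ^[i] s) = ∏ i ∈ range p, σ^[i + 1] s := by
        rw [map_prod]
        exact prod_congr rfl fun i _ => (Function.iterate_succ_apply' (⇑σ) i s).symm
      have h2 := prod_range_succ' (fun i => σ^[i] s) p
      have h3 := prod_range_succ (fun i => σ^[i] s) p
      rw [hn, h1]
      rw [h3, hσ] at h2
      have hs0 : s ≠ 0 := fun h => hs (h ▸ Q.zero_mem)
      exact (mul_right_cancel₀ hs0 h2).symm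
    have hnQ : s' * s ∉ Q := by
      rw [hn]
      have h1 : ∀ i, σ^[i] s ∉ Q := by
        intro i
        induction i with
        | zero => exact hs
        | succ i ih =>
          rw [Function.iterate_succ_apply', hQst]
          exact ih
      exact Submonoid.prod_mem Q.primeCompl fun i _ => h1 i
    have h1 : x * al (s' * s) = al (s' * r) := by
      rw [map_mul, map_mul]
      linear_combination al s' * h
    have h2 : σ (s' * r) = s' * r := by
      have h3 := congrArg τ h1
      rw [map_mul τ, hx, hτal, hτal, hσn, h1] at h3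
      exact (hBinj h3).symm
    obtain ⟨a, ha⟩ := (hfix _).1 h2
    obtain ⟨n, hn'⟩ := (hfix _).1 hσn
    have hnq : n ∉ q := by
      rw [hq, Ideal.mem_comap, hn']
      exact hnQ
    refine ⟨IsLocalization.mk' _ a (⟨n, hnq⟩ : q.primeCompl), ?_⟩
    rw [Localization.localRingHom_mk']
    rw [IsLocalization.mk'_eq_iff_eq_mul]
    change al (j a) = x * al (j n)
    rw [ha, hn', h1]
  -- the conclusion
  have hd : ∀ m, 0 < m → m < p → σ^[m] b ≠ b := by
    intro m h0 hm h
    apply htne
    obtain ⟨k, hk⟩ := iter_inv σ hσ hp.out h0 hm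
    have h1 : Function.IsPeriodicPt σ m b := h
    have h2 := h1.const_mul k
    rw [← hk b, sub_eq_zero]
    exact h2
  obtain ⟨PA, hPA, hPm⟩ := exists_PA σ hσ j hfix b
  have hPA0 : eval₂ j b PA = 0 := by
    rw [← eval_map, hPA, PP_eval]
  have hker : ∀ g0 : A[X], eval₂ j b g0 = 0 → PA ∣ g0 := by
    intro g0 h1
    have h2 : PP σ p b ∣ g0.map j := by
      apply PP_dvd σ hd
      intro i
      rw [eval_map]
      exact eval_iter σ j hfix g0 b h1 _
    rwa [← hPA, map_dvd_map j hj hPm] at h2
  have hsurj1 : ∀ c : Localization.AtPrime Q, ∃ g : (Localization.AtPrime q)[X],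
      c = eval₂ (Localization.localRingHom q Q j hq) (algebraMap B _ b) g := by
    intro c
    obtain ⟨N, hN1, hN2⟩ := core p hp.out τ hτp hm (al b) htne' hdiv c
    have h1 : N ∈ lifts (Localization.localRingHom q Q j hq) := by
      rw [lifts_iff_coeff_lifts]
      intro n
      have h1 := congrArg (fun P => P.coeff n) hN1
      simp only [coeff_map] at h1
      exact hinv _ h1
    obtain ⟨g, hg⟩ := (mem_lifts _).1 h1
    refine ⟨g, ?_⟩
    rw [← eval_map, hg]
    exact hN2.symm
  have hdeg : 0 < (PA.map (algebraMap A (Localization.AtPrime q))).natDegree := by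
    have h1 : PA.natDegree = p := by
      have h2 : (PA.map j).natDegree = PA.natDegree := hPm.natDegree_map j
      rw [← h2, hPA]
      unfold PP
      rw [natDegree_prod_of_monic _ _ (fun i _ => monic_X_sub_C _)]
      simp [natDegree_X_sub_C, ZMod.card]
    rw [hPm.natDegree_map, h1]
    exact hp.out.pos
  have hno : IsNoetherianRing (Localization.AtPrime q) := by
    refine noeth (Localization.localRingHom q Q j hq) (algebraMap B (Localization.AtPrime Q) b)
      (PA.map (algebraMap A (Localization.AtPrime q))) (hPm.map _) hdeg ?_ ?_ hsurj1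
    · rw [map_eval, hPA0, map_zero]
    · exact ker_dvd j q Q hq b PA hBinj hker
  refine mono_reg j q Q hq b PA hBinj hPm hPA0 hker ?_
  intro c
  obtain ⟨g, hg⟩ := hsurj1 c
  refine ⟨g, 1, ?_, ?_⟩
  · rw [eval₂_one]
    exact isUnit_one
  · rw [eval₂_one, mul_one]
    exact hg

end desc

end Pool.Agent.Y824.G4
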