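import Mathlib

/-!
# Project G, G4-DESCG: an element fixed by the inertia group which separates the other elements
-/

set_option autoImplicit false
set_option linter.unusedSectionVars false

namespace Pool.Agent.Y824.G4

open Finset Polynomial
open scoped Pointwise

section

variable {B : Type} [CommRing B] {G : Type} [Group G] (ρ : G →* (B ≃+* B)) (Q : Ideal B)

lemma rmul (g h : G) (b : B) : ρ (g * h) b = ρ g (ρ h b) := by
  rw [map_mul]
  rfl

lemma rone (b : B) : ρ 1 b = b := by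
  rw [map_one]
  rfl

lemma rinv (g : G) (b : B) : ρ g (ρ g⁻¹ b) = b := by
  rw [← rmul, mul_inv_cancel, rone]

/-- the inertia group -/
def iner : Subgroup G where
  carrier := {g | ∀ b, ρ g b - b ∈ Q}
  one_mem' := fun b => by
    rw [rone, sub_self]
    exact Q.zero_mem
  mul_mem' := by
    intro g h hg hh b
    have h1 : ρ (g * h) b - b = (ρ g (ρ h b) - ρ h b) + (ρ h b - b) := by
      rw [rmul]
      ring
    rw [h1]
    exact Q.add_mem (hg _) (hh _)
  inv_mem' := by
    intro g hg b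
    have h1 : ρ g⁻¹ b - b = -(ρ g (ρ g⁻¹ b) - ρ g⁻¹ b) := by
      rw [rinv]
      ring
    rw [h1]
    exact Q.neg_mem (hg _)

lemma mem_iner {g : G} : g ∈ iner ρ Q ↔ ∀ b, ρ g b - b ∈ Q := Iff.rfl

variable {ρ Q}

lemma iner_stab {h : G} (hh : h ∈ iner ρ Q) {x : B} (hx : x ∈ Q) : ρ h x ∈ Q := by
  have h1 : ρ h x = (ρ h x - x) + x := by ring
  rw [h1]
  exact Q.add_mem (hh x) hx

lemma stab_of_inv [Finite G] {g : G} (hg : ∀ x, ρ g x ∈ Q → x ∈ Q) (x : B) (hx : x ∈ Q) :
    ρ g x ∈ Q := by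
  by_contra hcon
  obtain ⟨n, hn0, hn⟩ := isOfFinOrder_iff_pow_eq_one.1 (isOfFinOrder_of_finite g)
  have h1 : ∀ m : ℕ, ρ (g ^ (m + 1)) x ∉ Q := by
    intro m
    induction m with
    | zero => rwa [zero_add, pow_one]
    | succ m ih =>
      rw [pow_succ', rmul]
      exact fun h => ih (hg _ h)
  have h2 := h1 (n - 1)
  rw [Nat.sub_add_cancel hn0, hn, rone] at h2
  exact h2 hx

lemma stab_mul {g h : G} (hh : h ∈ iner ρ Q) (hgh : ∀ x ∈ Q, ρ (g * h) x ∈ Q) :
    ∀ x ∈ Q, ρ g x ∈ Q := by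
  intro x hx
  have h1 := hgh (ρ h⁻¹ x) (iner_stab ((iner ρ Q).inv_mem hh) hx)
  rwa [rmul, rinv] at h1

variable [Finite G] [Q.IsPrime]

/-- a map to the invariants of the inertia group -/
theorem exists_T (hc : Nat.card (iner ρ Q) = 1 ∨ (Nat.card (iner ρ Q)).Prime) :
    ∃ T : B → B, (∀ b, ∀ h ∈ iner ρ Q, ρ h (T b) = T b) ∧
      (∀ g, (∀ x ∈ Q, ρ g x ∈ Q) → ∀ b, ρ g (T b) - T b ∈ Q → ρ g b - b ∈ Q) ∧
      (∀ b, T b ∈ Q → b ∈ Q) ∧
      ∀ (J : Ideal B) (b : B), (∀ h ∈ iner ρ Q, ρ h b ∈ J) → T b ∈ J := by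
  classical
  let _ : Fintype (iner ρ Q) := Fintype.ofFinite _
  have hQ : Q.IsPrime := inferInstance
  set n := Nat.card (iner ρ Q) with hn
  have hn' : Fintype.card (iner ρ Q) = n := by rw [hn, Nat.card_eq_fintype_card]
  by_cases hnQ : (n : B) ∈ Q
  · -- the norm
    have hp : n.Prime := by
      rcases hc with h | h
      · exfalso
        rw [h, Nat.cast_one] at hnQ
        exact hQ.ne_top ((Ideal.eq_top_iff_one Q).2 hnQ)
      · exact h
    have hN : ∀ b, (∏ h : iner ρ Q, ρ h b) - b ^ n ∈ Q := by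
      intro b
      rw [← Ideal.Quotient.eq, map_prod, map_pow, ← hn', ← Finset.card_univ,
        Finset.prod_congr rfl (fun h _ => (Ideal.Quotient.eq).2 (h.2 b)), Finset.prod_const]
    refine ⟨fun b => ∏ h : iner ρ Q, ρ h b, ?_, ?_, ?_, ?_⟩
    · intro b k hk
      simp only
      rw [map_prod]
      refine Fintype.prod_equiv (Equiv.mulLeft (⟨k, hk⟩ : iner ρ Q)) _ _ fun h => ?_
      rw [← rmul]
      rfl
    · intro g hg b h1
      have h2 : (ρ g b) ^ n - b ^ n ∈ Q := by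
        have h3 := hg _ (hN b)
        have h4 := hN b
        rw [map_sub, map_pow] at h3
        have h5 : (ρ g b) ^ n - b ^ n = (ρ g (∏ h : iner ρ Q, ρ h b) - ∏ h : iner ρ Q, ρ h b) -
            (ρ g (∏ h : iner ρ Q, ρ h b) - (ρ g b) ^ n) +
            ((∏ h : iner ρ Q, ρ h b) - b ^ n) := by ring
        rw [h5]
        exact Q.add_mem (Q.sub_mem h1 h3) h4
      obtain ⟨r, hr⟩ := exists_add_pow_prime_eq hp (ρ g b - b) b
      rw [sub_add_cancel] at hr
      refine hQ.mem_of_pow_mem n ?_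
      have h3 : (ρ g b - b) ^ n = ((ρ g b) ^ n - b ^ n) - (n : B) * ((ρ g b - b) * b * r) := by
        rw [hr]
        ring
      rw [h3]
      exact Q.sub_mem h2 (Q.mul_mem_right _ hnQ)
    · intro b hb
      have h1 := Q.sub_mem hb (hN b)
      simp only [sub_sub_cancel] at h1
      exact hQ.mem_of_pow_mem n h1
    · intro J b hb
      have h1 : (univ : Finset (iner ρ Q)).Nonempty := univ_nonempty
      obtain ⟨k, hk⟩ := h1
      simp only
      rw [← Finset.mul_prod_erase _ _ hk]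
      exact J.mul_mem_right _ (hb k k.2)
  · -- the trace
    have hT : ∀ b, (∑ h : iner ρ Q, ρ h b) - (n : B) * b ∈ Q := by
      intro b
      rw [← Ideal.Quotient.eq, map_sum, map_mul, map_natCast, ← hn', ← Finset.card_univ,
        Finset.sum_congr rfl (fun h _ => (Ideal.Quotient.eq).2 (h.2 b)), Finset.sum_const,
        nsmul_eq_mul]
    refine ⟨fun b => ∑ h : iner ρ Q, ρ h b, ?_, ?_, ?_, ?_⟩
    · intro b k hk
      simp only
      rw [map_sum]
      refine Fintype.sum_equiv (Equiv.mulLeft (⟨k, hk⟩ : iner ρ Q)) _ _ fun h => ?_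
      rw [← rmul]
      rfl
    · intro g hg b h1
      have h3 := hg _ (hT b)
      have h4 := hT b
      rw [map_sub, map_mul, map_natCast] at h3
      have h5 : (n : B) * (ρ g b - b) = (ρ g (∑ h : iner ρ Q, ρ h b) - ∑ h : iner ρ Q, ρ h b) -
          (ρ g (∑ h : iner ρ Q, ρ h b) - (n : B) * ρ g b) +
          ((∑ h : iner ρ Q, ρ h b) - (n : B) * b) := by ring
      have h6 : (n : B) * (ρ g b - b) ∈ Q := by
        rw [h5]
        exact Q.add_mem (Q.sub_mem h1 h3) h4
      exact (hQ.mem_or_mem h6).resolve_left hnQ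
    · intro b hb
      have h1 := Q.sub_mem hb (hT b)
      simp only [sub_sub_cancel] at h1
      exact (hQ.mem_or_mem h1).resolve_left hnQ
    · intro J b hb
      exact J.sum_mem fun k _ => hb k k.2

/-- the invariants of the inertia group separate the other elements -/
theorem exists_c (hc : Nat.card (iner ρ Q) = 1 ∨ (Nat.card (iner ρ Q)).Prime) {g : G}
    (hg : g ∉ iner ρ Q) : ∃ c, (∀ h ∈ iner ρ Q, ρ h c = c) ∧ ρ g c - c ∉ Q := by
  classical
  let _ : Fintype (iner ρ Q) := Fintype.ofFinite _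
  have hQ : Q.IsPrime := inferInstance
  by_contra hcon
  push Not at hcon
  obtain ⟨T, T1, T2, _, _⟩ := exists_T hc
  apply hg
  intro b
  refine T2 g ?_ b (hcon _ (T1 b))
  -- `g` fixes `Q`
  have h1 : (Q : Set B) ⊆ ⋃ h ∈ ((univ : Finset (iner ρ Q)) : Set (iner ρ Q)),
      ((Q.comap ((ρ (g * h) : B ≃+* B) : B →+* B) : Ideal B) : Set B) := by
    intro x hx
    have h2 : (∏ h : iner ρ Q, ρ h x) ∈ Q := by
      have h3 : (univ : Finset (iner ρ Q)).Nonempty := univ_nonempty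
      obtain ⟨k, hk⟩ := h3
      rw [← Finset.mul_prod_erase _ _ hk]
      exact Q.mul_mem_right _ (iner_stab k.2 hx)
    have h3 := hcon (∏ h : iner ρ Q, ρ h x) (by
      intro k hk
      rw [map_prod]
      refine Fintype.prod_equiv (Equiv.mulLeft (⟨k, hk⟩ : iner ρ Q)) _ _ fun h => ?_
      rw [← rmul]
      rfl)
    have h4 : ρ g (∏ h : iner ρ Q, ρ h x) ∈ Q := by
      have := Q.add_mem h3 h2
      rwa [sub_add_cancel] at this
    rw [map_prod, hQ.prod_mem_iff] at h4
    obtain ⟨h, _, h5⟩ := h4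
    rw [Set.mem_iUnion₂]
    refine ⟨h, mem_coe.2 (mem_univ h), ?_⟩
    rw [SetLike.mem_coe, Ideal.mem_comap]
    change ρ (g * h) x ∈ Q
    rw [rmul]
    exact h5
  rw [Ideal.subset_union_prime 1 1 (fun i _ _ _ => inferInstance)] at h1
  obtain ⟨h, _, h2⟩ := h1
  exact stab_mul h.2 fun x hx => h2 hx

/-- the case of an infinite field of invariants -/
theorem sep_infinite (hc : Nat.card (iner ρ Q) = 1 ∨ (Nat.card (iner ρ Q)).Prime)
    (hinf : (Ideal.Quotient.mk Q '' {a | ∀ g, ρ g a = a}).Infinite) :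
    ∃ y, (∀ h ∈ iner ρ Q, ρ h y = y) ∧ ∀ g, g ∉ iner ρ Q → ρ g y - y ∉ Q := by
  classical
  let _ : Fintype G := Fintype.ofFinite _
  have hQ : Q.IsPrime := inferInstance
  by_contra hcon
  push Not at hcon
  let BI : AddSubgroup B :=
    { carrier := {y | ∀ h ∈ iner ρ Q, ρ h y = y}
      zero_mem' := fun h _ => map_zero _
      add_mem' := fun {x y} hx hy h hh => by rw [map_add, hx h hh, hy h hh]
      neg_mem' := fun {x} hx h hh => by rw [map_neg, hx h hh] }
  let H : G → AddSubgroup BI := fun g =>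
    { carrier := {y | ρ g (y : B) - y ∈ Q}
      zero_mem' := by
        change ρ g ((0 : BI) : B) - ((0 : BI) : B) ∈ Q
        rw [AddSubgroup.coe_zero, map_zero, sub_zero]
        exact Q.zero_mem
      add_mem' := fun {x y} hx hy => by
        change ρ g ((x + y : BI) : B) - ((x + y : BI) : B) ∈ Q
        have h1 : ρ g ((x + y : BI) : B) - ((x + y : BI) : B) =
            (ρ g (x : B) - x) + (ρ g (y : B) - y) := by
          rw [AddSubgroup.coe_add, map_add]
          ring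
        rw [h1]
        exact Q.add_mem hx hy
      neg_mem' := fun {x} hx => by
        change ρ g ((-x : BI) : B) - ((-x : BI) : B) ∈ Q
        have h1 : ρ g ((-x : BI) : B) - ((-x : BI) : B) = -(ρ g (x : B) - x) := by
          rw [AddSubgroup.coe_neg, map_neg]
          ring
        rw [h1]
        exact Q.neg_mem hx }
  have hcov : ⋃ g ∈ (univ.filter fun g => g ∉ iner ρ Q), (0 : BI) +ᵥ (H g : Set BI) = Set.univ := by
    rw [Set.eq_univ_iff_forall]
    intro y
    obtain ⟨g, hg, h1⟩ := hcon y.1 y.2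
    rw [Set.mem_iUnion₂]
    refine ⟨g, mem_filter.2 ⟨mem_univ g, hg⟩, ?_⟩
    rw [zero_vadd]
    exact h1
  obtain ⟨k, hk, hfi⟩ := AddSubgroup.exists_finiteIndex_of_leftCoset_cover (g := fun _ => (0 : BI))
    hcov
  have hk' := (mem_filter.1 hk).2
  obtain ⟨c, hc1, hc2⟩ := exists_c hc hk'
  have hfin : Finite (BI ⧸ H k) := AddSubgroup.finite_quotient_of_finiteIndex
  apply hinf
  have hrep : ∀ x : (Ideal.Quotient.mk Q '' {a | ∀ g, ρ g a = a} : Set (B ⧸ Q)), ∃ a : B,
      (∀ g, ρ g a = a) ∧ Ideal.Quotient.mk Q a = x.1 := fun x => x.2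
  choose a ha1 ha2 using hrep
  have hmem : ∀ x, a x * c ∈ BI := fun x h hh => by
    rw [map_mul, ha1, hc1 h hh]
  exact Finite.of_injective (fun x => (QuotientAddGroup.mk (⟨a x * c, hmem x⟩ : BI) : BI ⧸ H k))
    fun x y hxy => by
      rw [QuotientAddGroup.eq] at hxy
      have h1 : ρ k (-(a x * c) + a y * c) - (-(a x * c) + a y * c) ∈ Q := hxy
      have h2 : (a y - a x) * (ρ k c - c) ∈ Q := by
        have h3 : (a y - a x) * (ρ k c - c) =
            ρ k (-(a x * c) + a y * c) - (-(a x * c) + a y * c) := by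
          rw [map_add, map_neg, map_mul, map_mul, ha1, ha1]
          ring
        rw [h3]
        exact h1
      have h3 := (hQ.mem_or_mem h2).resolve_right hc2
      apply Subtype.ext
      rw [← ha2, ← ha2]
      exact ((Ideal.Quotient.eq).2 h3).symm

/-- the polynomial with the conjugates of `b` as roots -/
noncomputable def PG [Fintype G] (ρ : G →* (B ≃+* B)) (b : B) : B[X] := ∏ g : G, (X - C (ρ g b))

lemma PG_map [Fintype G] (ρ : G →* (B ≃+* B)) (b : B) (g : G) :
    (PG ρ b).map (ρ g : B →+* B) = PG ρ b := by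
  unfold PG
  rw [Polynomial.map_prod]
  refine Fintype.prod_equiv (Equiv.mulLeft g) _ _ fun h => ?_
  rw [Polynomial.map_sub, map_X, map_C]
  congr 2
  exact (rmul ρ g h b).symm

lemma PG_coeff [Fintype G] (ρ : G →* (B ≃+* B)) (b : B) (i : ℕ) (g : G) :
    ρ g ((PG ρ b).coeff i) = (PG ρ b).coeff i := by
  have h1 := congrArg (fun P => P.coeff i) (PG_map ρ b g)
  simp only [coeff_map] at h1
  exact h1

/-- the case of a finite field of invariants -/
theorem sep_finite (hc : Nat.card (iner ρ Q) = 1 ∨ (Nat.card (iner ρ Q)).Prime)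
    (hfin : (Ideal.Quotient.mk Q '' {a | ∀ g, ρ g a = a}).Finite) :
    ∃ y, (∀ h ∈ iner ρ Q, ρ h y = y) ∧ ∀ g, g ∉ iner ρ Q → ρ g y - y ∉ Q := by
  classical
  let _ : Fintype G := Fintype.ofFinite _
  have hQ : Q.IsPrime := inferInstance
  have hdom : IsDomain (B ⧸ Q) := Ideal.Quotient.isDomain Q
  -- the quotient is finite
  have hBQ : Finite (B ⧸ Q) := by
    rw [← Set.finite_univ_iff]
    refine (bUnion_roots_finite (RingHom.id (B ⧸ Q)) (Fintype.card G) hfin).subset ?_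
    intro x _
    obtain ⟨b, rfl⟩ := Ideal.Quotient.mk_surjective x
    rw [Set.mem_iUnion₂]
    refine ⟨(PG ρ b).map (Ideal.Quotient.mk Q), ⟨?_, fun i => ?_⟩, ?_⟩
    · refine natDegree_map_le.trans ?_
      unfold PG
      refine (natDegree_prod_le _ _).trans ?_
      refine (Finset.sum_le_sum fun g _ => (natDegree_X_sub_C_le _)).trans ?_
      rw [Finset.sum_const, Finset.card_univ, smul_eq_mul, mul_one]
    · rw [coeff_map]
      exact ⟨_, fun g => PG_coeff ρ b i g, rfl⟩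
    · have hm : ((PG ρ b).map (Ideal.Quotient.mk Q)).Monic :=
        (monic_prod_of_monic _ _ fun _ _ => monic_X_sub_C _).map _
      rw [Polynomial.map_id, mem_coe, Multiset.mem_toFinset, mem_roots hm.ne_zero, IsRoot.def,
        eval_map, eval₂_hom]
      have h1 : (PG ρ b).eval b = 0 := by
        unfold PG
        rw [eval_prod]
        refine Finset.prod_eq_zero (mem_univ (1 : G)) ?_
        rw [rone]
        simp
      rw [h1, map_zero]
  obtain ⟨θ, hθ⟩ := IsCyclic.exists_generator (α := (B ⧸ Q)ˣ)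
  obtain ⟨T, T1, T2, T3, T4⟩ := exists_T hc
  -- an element in the other conjugates of `Q`
  have he : ∀ g : G, ∃ e : B, ¬ (∀ x ∈ Q, ρ g x ∈ Q) → ρ g e ∈ Q ∧ e ∉ Q := by
    intro g
    by_cases hg : ∀ x ∈ Q, ρ g x ∈ Q
    · exact ⟨0, fun h => absurd hg h⟩
    · have h1 : ¬ ∀ x, ρ g x ∈ Q → x ∈ Q := fun h => hg (stab_of_inv h)
      push Not at h1
      obtain ⟨e, he1, he2⟩ := h1
      exact ⟨e, fun _ => ⟨he1, he2⟩⟩
  choose e he using he
  set E : B := ∏ g ∈ univ.filter (fun g : G => ¬ ∀ x ∈ Q, ρ g x ∈ Q), e g with hE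
  have hE1 : E ∉ Q := by
    rw [hE, hQ.prod_mem_iff]
    rintro ⟨g, hg, h1⟩
    exact (he g (mem_filter.1 hg).2).2 h1
  have hE2 : ∀ g : G, (¬ ∀ x ∈ Q, ρ g x ∈ Q) → ρ g E ∈ Q := by
    intro g hg
    rw [hE, map_prod, hQ.prod_mem_iff]
    exact ⟨g, mem_filter.2 ⟨mem_univ g, hg⟩, (he g hg).1⟩
  have hfield : IsField (B ⧸ Q) := Finite.isField_of_domain (B ⧸ Q)
  obtain ⟨t0, ht0⟩ := hfield.mul_inv_cancel
    (a := Ideal.Quotient.mk Q E) (fun h => hE1 (Ideal.Quotient.eq_zero_iff_mem.1 h))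
  obtain ⟨t, ht⟩ := Ideal.Quotient.mk_surjective (t0 * (θ : B ⧸ Q))
  set b : B := E * t with hb
  have hbθ : Ideal.Quotient.mk Q b = θ := by
    rw [hb, map_mul, ht, ← mul_assoc, ht0, one_mul]
  have hbg : ∀ g : G, (¬ ∀ x ∈ Q, ρ g x ∈ Q) → ρ g b ∈ Q := by
    intro g hg
    rw [hb, map_mul]
    exact Q.mul_mem_right _ (hE2 g hg)
  have hb0 : b ∉ Q := by
    intro h
    rw [← Ideal.Quotient.eq_zero_iff_mem, hbθ] at h
    exact θ.ne_zero h
  refine ⟨T b, T1 b, fun g hg hcon => ?_⟩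
  by_cases hst : ∀ x ∈ Q, ρ g x ∈ Q
  · have h1 := T2 g hst b hcon
    apply hg
    intro x
    by_cases hx : x ∈ Q
    · exact Q.sub_mem (hst x hx) hx
    · have hx' : Ideal.Quotient.mk Q x ≠ 0 := fun h => hx (Ideal.Quotient.eq_zero_iff_mem.1 h)
      obtain ⟨y, hy⟩ := hfield.mul_inv_cancel hx'
      obtain ⟨n, hn⟩ := (mem_powers_iff_mem_zpowers.2 (hθ (Units.mkOfMulEqOne _ _ hy)))
      have h2 : Ideal.Quotient.mk Q x = Ideal.Quotient.mk Q (b ^ n) := by
        rw [map_pow, hbθ]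
        have h3 := congrArg (fun u : (B ⧸ Q)ˣ => (u : B ⧸ Q)) hn
        simp only [Units.val_pow_eq_pow_val] at h3
        exact h3.symm
      have h3 : x - b ^ n ∈ Q := (Ideal.Quotient.eq).1 h2
      have h4 : ρ g (b ^ n) - b ^ n ∈ Q := by
        rw [← Ideal.Quotient.eq, map_pow, map_pow, map_pow, (Ideal.Quotient.eq).2 h1]
      have h5 : ρ g x - x = ρ g (x - b ^ n) + (ρ g (b ^ n) - b ^ n) - (x - b ^ n) := by
        rw [map_sub]
        ring
      rw [h5]
      exact Q.sub_mem (Q.add_mem (hst _ h3) h4) h3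
  · have h1 : T b ∈ Q.comap ((ρ g : B ≃+* B) : B →+* B) := T4 _ b fun h hh => by
      rw [Ideal.mem_comap]
      change ρ g (ρ h b) ∈ Q
      rw [← rmul]
      exact hbg _ fun h2 => hst (stab_mul hh h2)
    have h2 : ρ g (T b) ∈ Q := h1
    have h3 := Q.sub_mem h2 hcon
    rw [sub_sub_cancel] at h3
    exact hb0 (T3 b h3)

/-- an element fixed by the inertia group which separates the other elements -/
theorem exists_sep (hc : Nat.card (iner ρ Q) = 1 ∨ (Nat.card (iner ρ Q)).Prime) :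
    ∃ y, (∀ h ∈ iner ρ Q, ρ h y = y) ∧ ∀ g, g ∉ iner ρ Q → ρ g y - y ∉ Q := by
  by_cases h : (Ideal.Quotient.mk Q '' {a | ∀ g, ρ g a = a}).Finite
  · exact sep_finite hc h
  · exact sep_infinite hc h

end

end Pool.Agent.Y824.G4
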