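import Pool.Agent.Y824.G4.Mono
import Pool.Agent.Y824.G4.Sep

/-!
# Project G, G4-DESCG: from the invariants of the inertia group to the invariants of the group
-/

set_option autoImplicit false
set_option linter.unusedSectionVars false

namespace Pool.Agent.Y824.G4

open Polynomial Finset IsLocalRing

section

variable {B : Type} [CommRing B] [IsDomain B] {G : Type} [Group G] [Finite G]
  (ρ : G →* (B ≃+* B)) (I : Subgroup G) {C : Type} [CommRing C] (ι : C →+* B)
  (hι : Function.Injective ι) (hC : ∀ b, (∀ h ∈ I, ρ h b = b) ↔ ∃ c, ι c = b)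
  {A : Type} [CommRing A] (jA : A →+* C) (hjA : Function.Injective jA)
  (hA : ∀ b, (∀ g, ρ g b = b) ↔ ∃ a, ι (jA a) = b)

/-- the conjugate of an invariant element of `I` -/
noncomputable def cj (b : B) (x : G ⧸ I) : B := ρ x.out b

include hC in
lemma cj_mk (c : C) (g : G) : cj ρ I (ι c) (QuotientGroup.mk g) = ρ g (ι c) := by
  obtain ⟨h, hh⟩ := QuotientGroup.mk_out_eq_mul I g
  unfold cj
  rw [hh, rmul, (hC (ι c)).2 ⟨c, rfl⟩ h h.2]

include hC in
lemma cj_smul (c : C) (g : G) (x : G ⧸ I) : cj ρ I (ι c) (g • x) = ρ g (cj ρ I (ι c) x) := by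
  obtain ⟨h, rfl⟩ := QuotientGroup.mk_surjective x
  have h1 : g • (QuotientGroup.mk h : G ⧸ I) = QuotientGroup.mk (g * h) := rfl
  rw [h1, cj_mk ρ I ι hC, cj_mk ρ I ι hC, rmul]

include hC in
lemma cj_one (c : C) : cj ρ I (ι c) (QuotientGroup.mk 1) = ι c := by
  rw [cj_mk ρ I ι hC, rone]

open Classical in
/-- the polynomial with the conjugates of `y` as roots -/
noncomputable def PC [Fintype (G ⧸ I)] (y : B) : B[X] := ∏ x : G ⧸ I, (X - Polynomial.C (cj ρ I y x))

open Classical in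
/-- the Lagrange type polynomial -/
noncomputable def GC [Fintype (G ⧸ I)] (y c : B) : B[X] :=
  ∑ x : G ⧸ I, Polynomial.C (cj ρ I c x) * ∏ x' ∈ univ.erase x, (X - Polynomial.C (cj ρ I y x'))

variable [Fintype (G ⧸ I)]

include hC in
lemma PC_map (y : C) (g : G) : (PC ρ I (ι y)).map (ρ g : B →+* B) = PC ρ I (ι y) := by
  classical
  unfold PC
  rw [Polynomial.map_prod]
  refine Fintype.prod_equiv (MulAction.toPerm g) _ _ fun x => ?_
  rw [Polynomial.map_sub, map_X, map_C, MulAction.toPerm_apply, cj_smul ρ I ι hC]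
  rfl

include hC in
lemma GC_map (y c : C) (g : G) :
    (GC ρ I (ι y) (ι c)).map (ρ g : B →+* B) = GC ρ I (ι y) (ι c) := by
  classical
  unfold GC
  rw [Polynomial.map_sum]
  refine Fintype.sum_equiv (MulAction.toPerm g) _ _ fun x => ?_
  rw [Polynomial.map_mul, map_C, MulAction.toPerm_apply, cj_smul ρ I ι hC]
  congr 1
  rw [Polynomial.map_prod]
  refine prod_equiv (MulAction.toPerm g) ?_ ?_
  · intro x'
    rw [mem_erase, mem_erase, MulAction.toPerm_apply]
    simp
  · intro x' _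
    rw [Polynomial.map_sub, map_X, map_C, MulAction.toPerm_apply, cj_smul ρ I ι hC]
    rfl

include hA in
lemma liftG {P : B[X]} (hP : ∀ g, P.map (ρ g : B →+* B) = P) : P ∈ lifts (ι.comp jA) := by
  rw [lifts_iff_coeff_lifts]
  intro n
  refine (hA _).1 fun g => ?_
  have h1 := congrArg (fun P => P.coeff n) (hP g)
  simp only [coeff_map] at h1
  exact h1

include hC in
lemma PC_eval (y : C) : (PC ρ I (ι y)).eval (ι y) = 0 := by
  classical
  unfold PC
  rw [eval_prod]
  refine prod_eq_zero (mem_univ (QuotientGroup.mk 1)) ?_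
  rw [cj_one ρ I ι hC]
  simp

open Classical in
include hC in
lemma GC_eval (y c : C) : (GC ρ I (ι y) (ι c)).eval (ι y) =
    ι c * ∏ x ∈ (univ : Finset (G ⧸ I)).erase (QuotientGroup.mk 1), (ι y - cj ρ I (ι y) x) := by
  unfold GC
  rw [eval_finsetSum, sum_eq_single (QuotientGroup.mk 1)]
  · rw [eval_mul, eval_C, cj_one ρ I ι hC, eval_prod]
    congr 1
    exact prod_congr rfl fun i _ => by rw [eval_sub, eval_X, eval_C]
  · intro x _ hx
    rw [eval_mul, eval_prod]
    rw [prod_eq_zero (mem_erase.2 ⟨Ne.symm hx, mem_univ _⟩), mul_zero]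
    rw [cj_one ρ I ι hC]
    simp
  · intro h
    exact absurd (mem_univ _) h

include hA in
lemma eval_conj (g0 : A[X]) (y : C) (h : eval₂ jA y g0 = 0) (x : G ⧸ I) :
    eval₂ (ι.comp jA) (cj ρ I (ι y) x) g0 = 0 := by
  have h1 : eval₂ (ι.comp jA) (ι y) g0 = 0 := by
    rw [← hom_eval₂, h, map_zero]
  unfold cj
  have h2 : ((ρ x.out : B ≃+* B) : B →+* B).comp (ι.comp jA) = ι.comp jA := by
    ext a
    exact (hA (ι (jA a))).2 ⟨a, rfl⟩ x.out
  have h3 := hom_eval₂ g0 (ι.comp jA) ((ρ x.out : B ≃+* B) : B →+* B) (ι y)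
  rw [h1, map_zero, h2] at h3
  exact h3.symm

include hC hA hι hjA in
/-- the step from the invariants of `I` to the invariants of `G` -/
theorem step [IsNoetherianRing A] (Q : Ideal B) [Q.IsPrime] (Q' : Ideal C) [Q'.IsPrime]
    (hQ' : Q' = Q.comap ι) (q : Ideal A) [q.IsPrime] (hq : q = Q'.comap jA)
    [IsRegularLocalRing (Localization.AtPrime Q')] (y : C)
    (hy : ∀ g, g ∉ I → ρ g (ι y) - ι y ∉ Q) : IsRegularLocalRing (Localization.AtPrime q) := by
  classical
  have hCd : IsDomain C := hι.isDomain ι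
  have hBinj : Function.Injective (algebraMap C (Localization.AtPrime Q')) :=
    IsLocalization.injective _ Q'.primeCompl_le_nonZeroDivisors
  have hinj : Function.Injective (ι.comp jA) := hι.comp hjA
  have hcjne : ∀ x : G ⧸ I, x ≠ QuotientGroup.mk 1 → ι y - cj ρ I (ι y) x ∉ Q := by
    intro x hx h
    have h1 : x.out ∉ I := by
      intro h2
      apply hx
      rw [← QuotientGroup.out_eq' x]
      exact (QuotientGroup.eq.2 (by simpa using h2)).symm
    apply hy _ h1
    have h2 : ρ x.out (ι y) - ι y = -(ι y - cj ρ I (ι y) x) := by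
      unfold cj
      ring
    rw [h2]
    exact Q.neg_mem h
  have hcjinj : Function.Injective (cj ρ I (ι y)) := by
    intro x x' h
    by_contra hne
    obtain ⟨g, rfl⟩ := QuotientGroup.mk_surjective x
    obtain ⟨g', rfl⟩ := QuotientGroup.mk_surjective x'
    rw [cj_mk ρ I ι hC, cj_mk ρ I ι hC] at h
    have h1 : g⁻¹ * g' ∉ I := fun h2 => hne (QuotientGroup.eq.2 h2)
    apply hy _ h1
    have h2 : ρ (g⁻¹ * g') (ι y) = ι y := by
      rw [rmul, ← h, ← rmul, inv_mul_cancel, rone]
    rw [h2, sub_self]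
    exact Q.zero_mem
  obtain ⟨PA, hPA, _, hPm⟩ := lifts_and_degree_eq_and_monic
    (liftG ρ ι jA hA (PC_map ρ I ι hC y)) (by
      unfold PC
      exact monic_prod_of_monic _ _ fun _ _ => monic_X_sub_C _)
  have hev : ∀ g0 : A[X], ι (eval₂ jA y g0) = (g0.map (ι.comp jA)).eval (ι y) := by
    intro g0
    rw [hom_eval₂, eval_map]
  have hPA0 : eval₂ jA y PA = 0 := by
    apply hι
    rw [hev, hPA, PC_eval ρ I ι hC, map_zero]
  have hker : ∀ g0 : A[X], eval₂ jA y g0 = 0 → PA ∣ g0 := by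
    intro g0 h1
    rw [← map_dvd_map (ι.comp jA) hinj hPm, hPA]
    have h2 : ∀ x, (g0.map (ι.comp jA)).eval (cj ρ I (ι y) x) = 0 := by
      intro x
      rw [eval_map]
      exact eval_conj ρ I ι jA hA g0 y h1 x
    by_cases hg0 : g0.map (ι.comp jA) = 0
    · rw [hg0]
      exact dvd_zero _
    have h3 : PC ρ I (ι y) = (((univ : Finset (G ⧸ I)).val.map (cj ρ I (ι y))).map
        (fun a => X - Polynomial.C a)).prod := by
      rw [Multiset.map_map]
      rfl
    rw [h3, Multiset.prod_X_sub_C_dvd_iff_le_roots hg0, Multiset.le_iff_subset]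
    · intro b hb
      rw [Multiset.mem_map] at hb
      obtain ⟨x, _, rfl⟩ := hb
      rw [mem_roots hg0]
      exact h2 x
    · exact Multiset.Nodup.map hcjinj (univ : Finset (G ⧸ I)).nodup
  refine mono_reg jA q Q' hq y PA hBinj hPm hPA0 hker ?_
  -- surjectivity
  have hlift : ∀ c : C, ∃ gA : A[X], gA.map (ι.comp jA) = GC ρ I (ι y) (ι c) := fun c =>
    (mem_lifts _).1 (liftG ρ ι jA hA (GC_map ρ I ι hC y c))
  choose gA hgA using hlift
  set e : C := eval₂ jA y (gA 1) with he
  have he1 : ι e = ∏ x ∈ (univ : Finset (G ⧸ I)).erase (QuotientGroup.mk 1),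
      (ι y - cj ρ I (ι y) x) := by
    rw [he, hev, hgA, GC_eval ρ I ι hC, map_one, one_mul]
  have heQ : e ∉ Q' := by
    rw [hQ', Ideal.mem_comap, he1]
    exact Submonoid.prod_mem Q.primeCompl fun x hx => hcjne x (mem_erase.1 hx).1
  have hec : ∀ c : C, eval₂ jA y (gA c) = c * e := by
    intro c
    apply hι
    rw [hev, hgA, GC_eval ρ I ι hC, map_mul, he1]
  intro c
  obtain ⟨c1, t, rfl⟩ := IsLocalization.exists_mk'_eq Q'.primeCompl c
  refine ⟨(gA c1).map (algebraMap A _), (gA (t : C)).map (algebraMap A _), ?_, ?_⟩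
  · rw [map_eval, hec]
    exact IsLocalization.map_units (Localization.AtPrime Q')
      (⟨_, Submonoid.mul_mem Q'.primeCompl t.2 heQ⟩ : Q'.primeCompl)
  · rw [map_eval, map_eval, hec, hec, map_mul, map_mul, ← mul_assoc, IsLocalization.mk'_spec]

end

end Pool.Agent.Y824.G4
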